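import Mathlib
import Pool.Agent.N604.MW.DFin

/-!
# Generic diagonal forms of degree `k`: exactly `k + 1` variables for almost all integers

For every `k ≥ 2` and almost every `(α_1, ..., α_{k+1}) ∈ (0, ∞) ^ (k+1)`, all but `N ^ (1 - σ)` integers
up to `N` are of the form `⌊α_1 p_1 ^ k⌋ + ... + ⌊α_{k+1} p_{k+1} ^ k⌋` with primes `p_i`. On the other
hand, `k` variables never suffice if the product of the coefficients is larger than one, even with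
positive integers as variables: a positive proportion of the integers is missed.
-/

namespace Pool.Agent.Results.MP_ee77ae_nt.GenericDiagonalExact

open MeasureTheory

/-- `m = ⌊α_1 n_1 ^ k⌋ + ... + ⌊α_s n_s ^ k⌋` for some positive integers `n_i` -/
def IsValue (k : ℕ) {s : ℕ} (α : Fin s → ℝ) (m : ℕ) : Prop :=
  ∃ n : Fin s → ℕ, (∀ i, 0 < n i) ∧ ∑ i, ⌊α i * (n i : ℝ) ^ k⌋ = (m : ℤ)

/-- `m = ⌊α_1 p_1 ^ k⌋ + ... + ⌊α_s p_s ^ k⌋` for some primes `p_i` -/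
def IsPrimeValue (k : ℕ) {s : ℕ} (α : Fin s → ℝ) (m : ℕ) : Prop :=
  ∃ p : Fin s → ℕ, (∀ i, (p i).Prime) ∧ ∑ i, ⌊α i * (p i : ℝ) ^ k⌋ = (m : ℤ)

theorem result (k : ℕ) (hk : 2 ≤ k) :
    (∀ᵐ α : Fin (k + 1) → ℝ, (∀ i, 0 < α i) → ∃ σ : ℝ, 0 < σ ∧ ∃ N0 : ℕ, ∀ N : ℕ, N0 ≤ N →
      ({m : ℕ | m ≤ N ∧ ¬ IsPrimeValue k α m}.ncard : ℝ) ≤ (N : ℝ) ^ (1 - σ)) ∧
    (∀ α : Fin k → ℝ, (∀ i, 0 < α i) → 1 < ∏ i, α i → ∃ η : ℝ, 0 < η ∧ ∃ N0 : ℕ, ∀ N : ℕ, N0 ≤ N →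
      ({m : ℕ | m ≤ N ∧ IsValue k α m}.ncard : ℝ) ≤ (1 - η) * N) :=
  ⟨Pool.Agent.N604.MW.dgen2 k hk, fun α hα hprod => Pool.Agent.N604.MW.dsharp hk α hα hprod⟩

end Pool.Agent.Results.MP_ee77ae_nt.GenericDiagonalExact
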