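import Mathlib
import Pool.Agent.N604.MW.DFin
import Pool.Agent.N732.ArbDiag2

/-!
# Generic diagonal forms: `k` variables in arbitrary sparse sets and two primes, almost all integers

For every `k ≥ 2` and almost every `(α_1, ..., α_{k+2})` with positive coordinates:

1. there are `δ, σ > 0` such that for EVERY set `T` of at least `X ^ (k - δ)` tuples of integers in
   `[X, 2X]` (`X` a large power of `2`), all but `X ^ (k - σ)` integers of the size `X ^ k` are of the form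
   `∑_{i ≤ k} ⌊α_i t_i^k⌋ + ⌊α_{k+1} p^k⌋ + ⌊α_{k+2} q^k⌋` with `t ∈ T` and primes `p`, `q`;
2. there is `δ > 0` such that for ARBITRARY sets `A_1, ..., A_k` of natural numbers, each with at least
   `x ^ (1 - δ)` elements in `[x, 2x]` for all large `x`, all but `N ^ (1 - σ')` integers up to `N` are
   `∑_{i ≤ k} ⌊α_i a_i^k⌋ + ⌊α_{k+1} p^k⌋ + ⌊α_{k+2} q^k⌋` with `a_i ∈ A_i` and primes `p`, `q`.
-/

set_option autoImplicit false

namespace Pool.Agent.Results.MP_ee77ae_nt.ArbitrarySets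

open MeasureTheory

/-- the sum of the integer parts of `α_i n_i ^ k` -/
noncomputable def val (k : ℕ) {s : ℕ} (α : Fin s → ℝ) (n : Fin s → ℕ) : ℤ := ∑ i, ⌊α i * (n i : ℝ) ^ k⌋

/-- the `k`-tuples of integers in `[X, 2 X]` -/
def box (k X : ℕ) : Finset (Fin k → ℕ) := Fintype.piFinset fun _ => Finset.Icc X (2 * X)

/-- `A` has at least `x ^ (1 - δ)` elements in `[x, 2 x]`, for all large `x` -/
def Large (δ : ℝ) (A : Set ℕ) : Prop := ∃ x0 : ℕ, ∀ x : ℕ, x0 ≤ x →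
  (x : ℝ) ^ (1 - δ) ≤ ({a : ℕ | a ∈ A ∧ x ≤ a ∧ a ≤ 2 * x}.ncard : ℝ)

theorem result (k : ℕ) (hk : 2 ≤ k) :
    ∀ᵐ α : Fin (k + 2) → ℝ, (∀ i, 0 < α i) →
      (∃ δ σ : ℝ, 0 < δ ∧ 0 < σ ∧ ∃ v ν0 : ℕ, 1 ≤ v ∧ ∀ ν : ℕ, ν0 ≤ ν →
        ∀ T : Finset (Fin k → ℕ), T ⊆ box k (2 ^ ν) → ((2 : ℝ) ^ ν) ^ ((k : ℝ) - δ) ≤ T.card →
        ∀ S : Finset ℕ, (∀ m ∈ S, v * (2 ^ ν) ^ k ≤ m ∧ m ≤ 2 ^ k * (v * (2 ^ ν) ^ k) ∧
          ¬ ∃ t ∈ T, ∃ q : Fin 2 → ℕ, (∀ j, (q j).Prime) ∧ val k α (Fin.append t q) = m) →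
          (S.card : ℝ) ≤ ((2 : ℝ) ^ ν) ^ ((k : ℝ) - σ)) ∧
      (∃ δ : ℝ, 0 < δ ∧ ∀ A : Fin k → Set ℕ, (∀ i, Large δ (A i)) →
        ∃ σ' : ℝ, 0 < σ' ∧ ∃ N0 : ℕ, ∀ N : ℕ, N0 ≤ N →
          ({m : ℕ | m ≤ N ∧ ¬ ∃ n : Fin (k + 2) → ℕ, (∀ i : Fin k, n (Fin.castAdd 2 i) ∈ A i) ∧
            (∀ j : Fin 2, (n (Fin.natAdd k j)).Prime) ∧ val k α n = m}.ncard : ℝ) ≤ (N : ℝ) ^ (1 - σ')) := by
  have h1 := Pool.Agent.N645.PD.ddio (k + 2)
  have h2 := Pool.Agent.N618.PD.pull (k + 2) k (fun i => Fin.castAdd 2 i)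
    (fun i j h => Fin.castAdd_injective k 2 h) _
    (Pool.Agent.N604.MW.dmean_generic k hk)
  filter_upwards [h1, h2] with α ha1 ha2 hpos
  have hne : (Fin.natAdd k (0 : Fin 2)) ≠ Fin.natAdd k (1 : Fin 2) :=
    fun h => absurd (Fin.natAdd_injective 2 k h) (by decide)
  obtain ⟨v, C0, κ, σ, hκ, hσ, ν0, hS⟩ := Pool.Agent.N732.ArbD.scaleD_core hk
    (fun i => α (Fin.castAdd 2 i)) (fun i => α (Fin.castAdd 2 i))
    (α (Fin.natAdd k 0)) (α (Fin.natAdd k 1)) (fun _ => hpos _) (fun _ => hpos _) (hpos _) (hpos _)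
    (ha1.1 _) (ha1.1 _) (ha1.2 _ _ hne) ha2 ha2
  have hval : ∀ (t : Fin k → ℕ) (q : Fin 2 → ℕ), val k α (Fin.append t q) =
      Pool.Agent.N604.MW.dv k (fun i => α (Fin.castAdd 2 i)) t +
      (Pool.Agent.N604.MW.da k (α (Fin.natAdd k 0)) (q 0) +
       Pool.Agent.N604.MW.da k (α (Fin.natAdd k 1)) (q 1)) := by
    intro t q
    unfold val Pool.Agent.N604.MW.dv Pool.Agent.N604.MW.da
    rw [Fin.sum_univ_add, Fin.sum_univ_two]
    simp only [Fin.append_left, Fin.append_right]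
  refine ⟨?_, ?_⟩
  · refine ⟨σ / 8, σ, by linarith, hσ, 2 * v + 1, ν0, by omega, ?_⟩
    intro ν hν T hT hcard S hSS
    have hcast : ((2 : ℝ) ^ ν) = ((2 ^ ν : ℕ) : ℝ) := by push_cast; ring
    rw [hcast] at hcard ⊢
    refine Pool.Agent.N732.ArbD.exc_scale (hS ν hν) T hT hcard S ?_
    intro m hm
    obtain ⟨e1, e2, e3⟩ := hSS m hm
    refine ⟨e1, e2, ?_⟩
    rintro ⟨t, ht, p, p', hp, hp', hs⟩
    refine e3 ⟨t, ht, ![p, p'], ?_, ?_⟩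
    · intro j
      fin_cases j
      · exact hp
      · exact hp'
    · rw [hval]
      simpa using hs
  · refine ⟨σ / (8 * k), by positivity, fun A hA => ?_⟩
    obtain ⟨σ', hσ', N0, hN0⟩ := Pool.Agent.N732.ArbD.part3 hk hσ hS A hA
    refine ⟨σ', hσ', N0, fun N hN => le_trans ?_ (hN0 N hN)⟩
    refine Nat.cast_le.2 (Set.ncard_le_ncard ?_ ((Set.finite_Iic N).subset fun m hm => hm.1))
    rintro m ⟨hm, hno⟩
    refine ⟨hm, ?_⟩
    rintro ⟨t, p, p', ht, hp, hp', hs⟩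
    refine hno ⟨Fin.append t ![p, p'], ?_, ?_, ?_⟩
    · intro i
      rw [Fin.append_left]
      exact ht i
    · intro j
      rw [Fin.append_right]
      fin_cases j
      · exact hp
      · exact hp'
    · rw [hval]
      simpa using hs

end Pool.Agent.Results.MP_ee77ae_nt.ArbitrarySets
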