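import Mathlib
import Pool.Agent.N604.MW.PPFin2

/-!
# The asymptotic formula for generic diagonal forms in primes: `k + O(k / log k)` variables

(a) There are absolute constants `C` and `k_0` such that for all `k ≥ k_0`, all `s ≥ k + C k / log k` and almost
every `α ∈ (0, ∞) ^ s` the following holds for every `Δ > 0`: the sum of `log p_1 ... log p_s` over the primes
with `y ≤ α_1 p_1 ^ k + ... + α_s p_s ^ k < y + Δ` is asymptotic to
`Δ Γ(1 + 1/k) ^ s / Γ(s/k) (α_1 ... α_s) ^ (-1/k) y ^ (s/k - 1)` as `y → ∞`.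

(b) With `s ≤ k` variables an asymptotic formula of this kind holds for no `α`.

So the least number of prime variables for the asymptotic formula is `(1 + o(1)) k` for generic diagonal forms.
-/

namespace Pool.Agent.Results.MP_ee77ae_nt.GenericPrimesAsymptotic

open MeasureTheory Filter

/-- The sum of `log p_1 ... log p_s` over the `s`-tuples of primes with `y ≤ ∑ α_i p_i ^ k < y + Δ`. -/
noncomputable def primeSum (s k : ℕ) (α : Fin s → ℝ) (y Δ : ℝ) : ℝ :=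
  ∑ᶠ p ∈ {p : Fin s → ℕ | (∀ i, (p i).Prime) ∧ y ≤ ∑ i, α i * (p i : ℝ) ^ k ∧ ∑ i, α i * (p i : ℝ) ^ k < y + Δ},
    ∏ i, Real.log (p i)

theorem result :
    (∃ C : ℝ, 0 < C ∧ ∃ k₀ : ℕ, ∀ k s : ℕ, k₀ ≤ k → (k : ℝ) + C * k / Real.log k ≤ s →
      ∀ᵐ α : Fin s → ℝ, (∀ i, 0 < α i) → ∀ Δ : ℝ, 0 < Δ →
        Tendsto (fun y : ℝ => primeSum s k α y Δ / y ^ ((s : ℝ) / k - 1)) atTop
          (nhds (Δ * (Real.Gamma (1 + 1 / (k : ℝ)) ^ s / Real.Gamma ((s : ℝ) / k) *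
            ∏ i, α i ^ (-(1 / (k : ℝ))))))) ∧
    (∀ (s k : ℕ) (α : Fin s → ℝ) (c : ℝ), s ≤ k → 0 < c →
      ¬ ∀ Δ : ℝ, 0 < Δ →
        Tendsto (fun y : ℝ => primeSum s k α y Δ / y ^ ((s : ℝ) / k - 1)) atTop (nhds (Δ * c))) :=
  ⟨Pool.Agent.N604.MW.pp_final, Pool.Agent.N604.MW.pconv⟩

end Pool.Agent.Results.MP_ee77ae_nt.GenericPrimesAsymptotic
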