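import Pool.Agent.N733.TG.K
import Pool.Agent.Results.MP_ee77ae_nt.GenericDiagonalExact

/-!
# Values of generic diagonal forms in `k + 1` prime variables near functions of the values of multiplicative functions

Let `k ≥ 2`. For almost every `(α_1, ..., α_{k+1}) ∈ (0, ∞) ^ (k+1)` there is a number `s < 1` with the following property. Let
`f` be a positive multiplicative function of at most polynomial growth such that `f p ≤ M p` for the large primes `p`, with
different values at different large primes; for example Euler's function or the sum of the divisors. Let `G` have steps bounded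
below by a positive constant and growth at most `v ^ d`, for example `G v = α v ^ d`, `d ≥ 1`, and let `d s + κ < 1`. Then for
all `m ≤ N` but `N / (log N) ^ U` EVERY positive integer `n` with `|n - G (f m)| ≤ f(m) ^ κ` is of the form
`⌊α_1 p_1 ^ k⌋ + ... + ⌊α_{k+1} p_{k+1} ^ k⌋` with primes `p_i`. The values of `f` are in general taken with very large
multiplicities, and so this does not follow from the size of the exceptional set of the form.

Proof. The form misses at most `N ^ (1 - σ)` integers up to `N` (`GenericDiagonalExact`), and the values of `f` avoid such sets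
(tool `N733/TG`).
-/

set_option autoImplicit false

namespace Pool.Agent.Results.MP_ee77ae_nt.MultiplicativeValues

open MeasureTheory
open Pool.Agent.N733.TG (LM Expanding lm_totient lm_sigma keep_good_nat expanding_pow)
open Pool.Agent.Results.MP_ee77ae_nt.GenericDiagonalExact (IsPrimeValue)

/-- the exceptional set, in the form needed by the tool -/
lemma count {P : ℕ → Prop} {σ : ℝ} (_hσ : 0 < σ) {N0 : ℕ}
    (h : ∀ N : ℕ, N0 ≤ N → ({m : ℕ | m ≤ N ∧ ¬ P m}.ncard : ℝ) ≤ (N : ℝ) ^ (1 - σ)) (ε : ℝ) (hε : 0 < ε) :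
    ∃ C : ℝ, ∀ X : ℕ, 1 ≤ X →
      ({t : ℕ | 1 ≤ t ∧ t ≤ X ∧ True ∧ ¬ P t}.ncard : ℝ) ≤ C * (X : ℝ) ^ ((1 - min σ 1) + ε) := by
  refine ⟨N0 + 1, fun X hX => ?_⟩
  have hX1 : (1 : ℝ) ≤ X := by exact_mod_cast hX
  have hs : 0 ≤ 1 - min σ 1 := by linarith [min_le_right σ 1]
  have hp : (1 : ℝ) ≤ (X : ℝ) ^ ((1 - min σ 1) + ε) := Real.one_le_rpow hX1 (by linarith)
  have hN0 : (0 : ℝ) ≤ N0 := Nat.cast_nonneg _
  rcases le_total N0 X with h0 | h0
  · have hfin : {m : ℕ | m ≤ X ∧ ¬ P m}.Finite := (Set.finite_Iic X).subset fun m hm => hm.1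
    have hsub : {t : ℕ | 1 ≤ t ∧ t ≤ X ∧ True ∧ ¬ P t} ⊆ {m : ℕ | m ≤ X ∧ ¬ P m} :=
      fun t ht => ⟨ht.2.1, ht.2.2.2⟩
    have h1 : ({t : ℕ | 1 ≤ t ∧ t ≤ X ∧ True ∧ ¬ P t}.ncard : ℝ) ≤ ({m : ℕ | m ≤ X ∧ ¬ P m}.ncard : ℝ) := by
      exact_mod_cast Set.ncard_le_ncard hsub hfin
    have h2 : (X : ℝ) ^ (1 - σ) ≤ (X : ℝ) ^ ((1 - min σ 1) + ε) :=
      Real.rpow_le_rpow_of_exponent_le hX1 (by linarith [min_le_left σ 1])
    have h3 := (h1.trans (h X h0)).trans h2
    nlinarith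
  · have hsub : {t : ℕ | 1 ≤ t ∧ t ≤ X ∧ True ∧ ¬ P t} ⊆ (Finset.Icc 1 X : Set ℕ) := by
      intro t ht
      rw [Finset.mem_coe, Finset.mem_Icc]
      exact ⟨ht.1, ht.2.1⟩
    have h1 := Set.ncard_le_ncard hsub (Finset.finite_toSet _)
    rw [Set.ncard_coe_finset, Nat.card_Icc] at h1
    have h2 : ({t : ℕ | 1 ≤ t ∧ t ≤ X ∧ True ∧ ¬ P t}.ncard : ℝ) ≤ N0 := by
      exact_mod_cast (show _ ≤ N0 by omega)
    nlinarith

/-- **Generic diagonal forms near the values of multiplicative functions.** Let `k ≥ 2`. For almost every `α ∈ ℝ ^ (k+1)` with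
positive coordinates there is `0 ≤ s < 1` such that: if `f` is multiplicative and positive, of at most polynomial growth, with
`f p ≤ M p` at the large primes, and injective there, if `G` has steps `≥ a > 0` and growth at most `v ^ d`, and if `κ ≥ 0`,
`d s + κ < 1`, then for every `U` and all large `N`, for all `m ≤ N` but `N / (log N) ^ U`, EVERY integer `n ≥ 1` with
`|n - G (f m)| ≤ f(m) ^ κ` is of the form `⌊α_1 p_1 ^ k⌋ + ... + ⌊α_{k+1} p_{k+1} ^ k⌋` with primes `p_i`. Euler's function and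
the sum of the divisors are examples of such functions `f`, and `β v ^ d` with `β > 0`, `d ≥ 1` is an example of `G`. -/
theorem result (k : ℕ) (hk : 2 ≤ k) :
    (∀ᵐ α : Fin (k + 1) → ℝ, (∀ i, 0 < α i) → ∃ s : ℝ, 0 ≤ s ∧ s < 1 ∧
      ∀ f : ℕ → ℕ, LM f → ∀ (G : ℕ → ℝ) (d : ℝ), Expanding G d → ∀ κ : ℝ, 0 ≤ κ → d * s + κ < 1 →
      ∀ U : ℕ, ∃ N₀ : ℕ, ∀ N : ℕ, N₀ ≤ N →
      ({m : ℕ | 1 ≤ m ∧ m ≤ N ∧ ¬ ∀ n : ℕ, 1 ≤ n → |(n : ℝ) - G (f m)| ≤ (f m : ℝ) ^ κ →
        IsPrimeValue k α n}.ncard : ℝ) ≤ N / Real.log N ^ U) ∧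
    (LM Nat.totient ∧ LM (fun m => ∑ d ∈ m.divisors, d)) ∧
    ∀ β d : ℝ, 0 < β → 1 ≤ d → Expanding (fun v => β * (v : ℝ) ^ d) d := by
  refine ⟨?_, ⟨lm_totient, lm_sigma⟩, fun β d hβ hd => expanding_pow hβ hd⟩
  filter_upwards [(Pool.Agent.Results.MP_ee77ae_nt.GenericDiagonalExact.result k hk).1] with α hα hpos
  obtain ⟨σ, hσ, N0, hN0⟩ := hα hpos
  refine ⟨1 - min σ 1, by linarith [min_le_right σ 1], by linarith [lt_min hσ one_pos], ?_⟩
  intro f hf G d hG κ hκ h1 U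
  obtain ⟨N₁, hN₁⟩ := keep_good_nat (fun _ => True) (IsPrimeValue k α) hf hG (s := 1 - min σ 1) (κ := κ)
    (by linarith [min_le_right σ 1]) hκ h1 (fun ε hε => count hσ hN0 ε hε) U
  refine ⟨N₁, fun N hN => le_trans (le_of_eq ?_) (hN₁ N hN)⟩
  congr 2
  ext m
  simp only [Set.mem_ofPred_eq, true_implies]

end Pool.Agent.Results.MP_ee77ae_nt.MultiplicativeValues
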